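import Pool.Agent.N361.DC.Crit

/-!
# Corollaries: pairwise balanced designs, bounded codegree
-/

set_option autoImplicit false

namespace Pool.Agent.N361.DC

open Finset

lemma psi_pos {k : ℕ} (hk : 2 ≤ k) : 0 < psi k := by
  unfold psi
  apply div_pos
  · have : (2 : ℚ) ^ 1 ≤ 2 ^ (k - 1) := pow_le_pow_right₀ (by norm_num) (by omega)
    linarith
  · have : 0 < k - 1 := by omega
    exact_mod_cast this

lemma psi_mul {k : ℕ} (hk : 2 ≤ k) : ((k - 1 : ℕ) : ℚ) * psi k = 2 ^ (k - 1) - 1 := by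
  unfold psi
  have : ((k - 1 : ℕ) : ℚ) ≠ 0 := by
    have : 0 < k - 1 := by omega
    exact_mod_cast this.ne'
  field_simp

/-- degrees in a pairwise balanced design -/
lemma pbd_deg {N : Finset ℕ} {K : Finset (Finset ℕ)} (hKN : ∀ A ∈ K, A ⊆ N) {l : ℕ}
    (hl : ∀ x ∈ N, ∀ y ∈ N, x ≠ y → (K.filter (fun A => x ∈ A ∧ y ∈ A)).card = l)
    {x : ℕ} (hx : x ∈ N) :
    ∑ A ∈ K.filter (fun A => x ∈ A), (A.card - 1) = l * (N.card - 1) := by
  have h1 : ∀ A ∈ K.filter (fun A => x ∈ A), A.card - 1 =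
      ∑ y ∈ N.erase x, if y ∈ A then 1 else 0 := by
    intro A hA
    rw [mem_filter] at hA
    rw [← card_filter, ← card_erase_of_mem hA.2]
    congr 1
    ext y
    simp only [mem_erase, mem_filter]
    constructor
    · rintro ⟨h1, h2⟩; exact ⟨⟨h1, hKN A hA.1 h2⟩, h2⟩
    · rintro ⟨⟨h1, _⟩, h2⟩; exact ⟨h1, h2⟩
  rw [sum_congr rfl h1, sum_comm]
  have h2 : ∀ y ∈ N.erase x, (∑ A ∈ K.filter (fun A => x ∈ A), if y ∈ A then 1 else 0) = l := by
    intro y hy
    rw [mem_erase] at hy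
    rw [← card_filter, filter_filter]
    exact hl x hx y hy.2 (Ne.symm hy.1)
  rw [sum_congr rfl h2, sum_const, card_erase_of_mem hx, smul_eq_mul, mul_comm]

/-- the certificate of a pairwise balanced design -/
lemma pbd_cert {N : Finset ℕ} {K : Finset (Finset ℕ)} (hKN : ∀ A ∈ K, A ⊆ N) {l : ℕ}
    (hl0 : 1 ≤ l) (hN : 2 ≤ N.card)
    (hl : ∀ x ∈ N, ∀ y ∈ N, x ≠ y → (K.filter (fun A => x ∈ A ∧ y ∈ A)).card = l)
    {s : ℚ} (hs : 0 ≤ s)
    (hA : ∀ A ∈ K, s * (2 ^ (A.card - 1) - 1) ≤ N.card - 1) :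
    Cert N K (fun A => s * ((A.card - 1 : ℕ) : ℚ) / (l * (N.card - 1 : ℕ) : ℕ)) s := by
  have hlN : (0 : ℚ) < (l * (N.card - 1) : ℕ) := by
    have : 0 < l * (N.card - 1) := Nat.mul_pos hl0 (by omega)
    exact_mod_cast this
  refine ⟨hKN, ?_, ?_, ?_⟩
  · intro A _
    positivity
  · intro x hx
    rw [← sum_div, ← mul_sum, ← Nat.cast_sum, pbd_deg hKN hl hx, mul_div_assoc,
      div_self hlN.ne', mul_one]
  · intro x hx y hy hxy
    have h1 : ∀ A ∈ K.filter (fun A => x ∈ A ∧ y ∈ A),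
        s * ((A.card - 1 : ℕ) : ℚ) / (l * (N.card - 1) : ℕ) * psi A.card ≤
          (N.card - 1) / (l * (N.card - 1) : ℕ) := by
      intro A hAK
      rw [mem_filter] at hAK
      have h2 : 2 ≤ A.card := by
        have : ({x, y} : Finset ℕ) ⊆ A := by
          intro z hz
          simp only [mem_insert, mem_singleton] at hz
          rcases hz with rfl | rfl
          · exact hAK.2.1
          · exact hAK.2.2
        have h3 := card_le_card this
        rwa [card_pair hxy] at h3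
      rw [div_mul_eq_mul_div, mul_assoc, psi_mul h2]
      exact div_le_div_of_nonneg_right (hA A hAK.1) hlN.le
    refine (sum_le_card_nsmul _ _ _ h1).trans ?_
    rw [hl x hx y hy hxy, nsmul_eq_mul, ← mul_div_assoc, div_le_one hlN]
    push_cast
    rw [Nat.cast_sub (by omega)]
    simp

/-- the certificate of a uniform family of bounded codegree -/
lemma unif_cert {M : Finset ℕ} {K : Finset (Finset ℕ)} {k l : ℕ} (hk : 2 ≤ k) (hl0 : 1 ≤ l)
    (hK : ∀ A ∈ K, A ⊆ M ∧ A.card = k)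
    (hl : ∀ x ∈ M, ∀ y ∈ M, x ≠ y → (K.filter (fun A => x ∈ A ∧ y ∈ A)).card ≤ l)
    {c : ℚ} (hc : ∀ x ∈ M, c ≤ (K.filter (fun A => x ∈ A)).card) :
    Cert M K (fun _ => 1 / (l * psi k)) (c / (l * psi k)) := by
  have hp := psi_pos hk
  have hl' : (0 : ℚ) < l := by exact_mod_cast hl0
  have hlp : 0 < l * psi k := mul_pos hl' hp
  refine ⟨fun A hA => (hK A hA).1, fun _ _ => by positivity, ?_, ?_⟩
  · intro x hx
    rw [sum_const, nsmul_eq_mul, mul_one_div]
    exact div_le_div_of_nonneg_right (hc x hx) hlp.le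
  · intro x hx y hy hxy
    have h1 : ∀ A ∈ K.filter (fun A => x ∈ A ∧ y ∈ A), 1 / (l * psi k) * psi A.card =
        1 / (l : ℚ) := by
      intro A hA
      rw [mem_filter] at hA
      rw [(hK A hA.1).2]
      field_simp
    rw [sum_congr rfl h1, sum_const, nsmul_eq_mul, mul_one_div, div_le_one hl']
    exact_mod_cast hl x hx y hy hxy

/-- Pairwise balanced designs. -/
theorem pbd (hflow : S_FLOW) (hinner : S_INNER) {F : Finset (Finset ℕ)} (hF : UC F)
    {N : Finset ℕ} {K : Finset (Finset ℕ)} (hKF : K ⊆ F) (hKN : ∀ A ∈ K, A ⊆ N) {l : ℕ}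
    (hl0 : 1 ≤ l) (hN : 2 ≤ N.card)
    (hl : ∀ x ∈ N, ∀ y ∈ N, x ≠ y → (K.filter (fun A => x ∈ A ∧ y ∈ A)).card = l)
    (hA : ∀ A ∈ K, 2 ^ (A.card - 1) ≤ N.card) :
    ∃ x ∈ N, F.card ≤ 2 * (F.filter (fun S => x ∈ S)).card := by
  refine abundant hflow hinner hF (card_pos.1 (by omega)) hKF
    (pbd_cert hKN hl0 hN hl zero_le_one ?_)
  intro A hAK
  have h1 : ((2 ^ (A.card - 1) : ℕ) : ℚ) ≤ N.card := by exact_mod_cast hA A hAK
  push_cast at h1
  linarith

/-- Pairwise balanced designs, strict form. -/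
theorem pbd_strict (hflow : S_FLOW) (hinner : S_INNER) {F : Finset (Finset ℕ)} (hF : UC F)
    {N : Finset ℕ} {K : Finset (Finset ℕ)} (hKF : K ⊆ F) (hKN : ∀ A ∈ K, A ⊆ N) {l : ℕ}
    (hl0 : 1 ≤ l) (hN : 2 ≤ N.card)
    (hl : ∀ x ∈ N, ∀ y ∈ N, x ≠ y → (K.filter (fun A => x ∈ A ∧ y ∈ A)).card = l)
    (hA : ∀ A ∈ K, 2 ^ (A.card - 1) < N.card) :
    (∃ x ∈ N, F.card < 2 * (F.filter (fun S => x ∈ S)).card) ∨
      ∀ S ∈ F, ∀ R ⊆ N, (S \ N) ∪ R ∈ F := by
  rcases hN.eq_or_lt with h2 | h2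
  · -- `|N| = 2` is impossible
    exfalso
    obtain ⟨x, y, hxy, hNe⟩ := card_eq_two.1 h2.symm
    have h3 := hl x (by rw [hNe]; simp) y (by rw [hNe]; simp) hxy
    obtain ⟨A, hAm⟩ := card_pos.1 (by omega : 0 < (K.filter (fun A => x ∈ A ∧ y ∈ A)).card)
    rw [mem_filter] at hAm
    have h4 : N ⊆ A := by
      rw [hNe]
      intro z hz
      simp only [mem_insert, mem_singleton] at hz
      rcases hz with rfl | rfl
      · exact hAm.2.1
      · exact hAm.2.2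
    have h5 := card_le_card h4
    have h6 := hA A hAm.1
    have h7 : 2 ^ 1 ≤ 2 ^ (A.card - 1) := Nat.pow_le_pow_right (by norm_num) (by omega)
    omega
  · have h3 : (3 : ℚ) ≤ N.card := by exact_mod_cast h2
    have h4 : (0 : ℚ) < N.card - 2 := by linarith
    have hs : (1 : ℚ) < (N.card - 1) / (N.card - 2) := by
      rw [lt_div_iff₀ h4]; linarith
    refine strict hflow hinner hF hKF hs (pbd_cert hKN hl0 hN hl (by positivity) ?_)
    intro A hAK
    have h1 : 2 ^ (A.card - 1) + 1 ≤ N.card := hA A hAK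
    have h1' : ((2 ^ (A.card - 1) + 1 : ℕ) : ℚ) ≤ N.card := by exact_mod_cast h1
    push_cast at h1'
    rw [div_mul_eq_mul_div, div_le_iff₀ h4]
    have h5 : (0 : ℚ) ≤ N.card - 1 := by linarith
    nlinarith

/-- Uniform families of bounded codegree. -/
theorem codeg (hflow : S_FLOW) (hinner : S_INNER) (hcore : S_CORE) {F : Finset (Finset ℕ)}
    (hF : UC F) {N : Finset ℕ} (hN : N.Nonempty) {K : Finset (Finset ℕ)} (hKF : K ⊆ F) {k l : ℕ}
    (hk : 2 ≤ k) (hl0 : 1 ≤ l) (hK : ∀ A ∈ K, A ⊆ N ∧ A.card = k)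
    (hl : ∀ x ∈ N, ∀ y ∈ N, x ≠ y → (K.filter (fun A => x ∈ A ∧ y ∈ A)).card ≤ l)
    (hm : l * (2 ^ (k - 1) - 1) * N.card ≤ (k - 1) * K.card) :
    ∃ x ∈ N, F.card ≤ 2 * (F.filter (fun S => x ∈ S)).card := by
  have hl' : (0 : ℚ) < l := by exact_mod_cast hl0
  have hk' : (0 : ℚ) < (k - 1 : ℕ) := by
    have : 0 < k - 1 := by omega
    exact_mod_cast this
  have hp := psi_pos hk
  obtain ⟨M, hMN, hMne, hM⟩ := hcore N K (l * psi k) hN
    (fun A hA => ⟨(hK A hA).1, card_pos.1 (by rw [(hK A hA).2]; omega)⟩) (by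
      have h1 : ((l * (2 ^ (k - 1) - 1) * N.card : ℕ) : ℚ) ≤ ((k - 1) * K.card : ℕ) := by
        exact_mod_cast hm
      rw [Nat.cast_mul, Nat.cast_mul, Nat.cast_sub Nat.one_le_two_pow, Nat.cast_mul] at h1
      push_cast at h1
      rw [← psi_mul hk] at h1
      refine le_of_mul_le_mul_left (a := ((k - 1 : ℕ) : ℚ)) ?_ hk'
      linarith)
  have hC := unif_cert (M := M) (K := K.filter (fun A => A ⊆ M)) hk hl0
    (fun A hA => ⟨(mem_filter.1 hA).2, (hK A (mem_filter.1 hA).1).2⟩)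
    (fun x hx y hy hxy => (card_le_card (by
      intro A hA
      rw [mem_filter, mem_filter] at hA
      exact mem_filter.2 ⟨hA.1.1, hA.2⟩)).trans (hl x (hMN hx) y (hMN hy) hxy))
    (c := l * psi k) (fun x hx => by rw [filter_filter]; exact hM x hx)
  rw [div_self (by positivity)] at hC
  obtain ⟨x, hx, h⟩ := abundant hflow hinner hF hMne ((filter_subset _ _).trans hKF) hC
  exact ⟨x, hMN hx, h⟩

end Pool.Agent.N361.DC
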