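import Pool.Agent.N361.DC.Main

/-!
# The criterion
-/

set_option autoImplicit false

namespace Pool.Agent.N361.DC

open Finset
open Pool.Agent.N361.CV (wt ie up)
open N361.FC (slice)

/-- the number of downward edges leaving `L` in direction `i` -/
def dn (L : Finset (Finset ℕ)) (i : ℕ) : ℕ := (L.filter (fun R => i ∈ R ∧ R.erase i ∉ L)).card

lemma card_mem (L : Finset (Finset ℕ)) (i : ℕ) :
    (L.filter (fun R => i ∈ R)).card = ie L i + dn L i := by
  have h1 := Finset.card_filter_add_card_filter_not (s := L.filter (fun R => i ∈ R))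
    (fun R => R.erase i ∈ L)
  rw [filter_filter, filter_filter] at h1
  have h2 : (L.filter (fun R => i ∈ R ∧ R.erase i ∈ L)).card = ie L i := by
    unfold ie
    refine card_bij' (fun R _ => R.erase i) (fun R _ => insert i R) ?_ ?_ ?_ ?_
    · intro R hR
      simp only [mem_filter] at hR ⊢
      exact ⟨hR.2.2, notMem_erase _ _, by rw [insert_erase hR.2.1]; exact hR.1⟩
    · intro R hR
      simp only [mem_filter] at hR ⊢
      exact ⟨hR.2.2, mem_insert_self _ _, by rw [erase_insert hR.2.1]; exact hR.1⟩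
    · intro R hR
      simp only [mem_filter] at hR
      exact insert_erase hR.2.1
    · intro R hR
      simp only [mem_filter] at hR
      exact erase_insert hR.2.1
  rw [← h1, h2]; rfl

lemma card_UPS (N : Finset ℕ) (L : Finset (Finset ℕ)) :
    (UPS N L).card = ∑ i ∈ N, up L i := by
  unfold UPS up
  rw [card_filter, sum_product_right]
  exact sum_congr rfl fun i _ => (card_filter _ _).symm

lemma card_DNS (N : Finset ℕ) (L : Finset (Finset ℕ)) (hL : ∀ R ∈ L, R ⊆ N) :
    (DNS N L).card = ∑ i ∈ N, dn L i := by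
  unfold DNS
  rw [card_filter, sum_product_right]
  refine sum_congr rfl fun i hi => ?_
  rw [← card_filter]
  unfold dn
  refine card_bij' (fun R _ => insert i R) (fun R _ => R.erase i) ?_ ?_ ?_ ?_
  · intro R hR
    simp only [mem_filter, mem_powerset] at hR ⊢
    exact ⟨hR.2.2.2, mem_insert_self _ _, by rw [erase_insert hR.2.2.1]; exact hR.2.1⟩
  · intro R hR
    simp only [mem_filter, mem_powerset] at hR ⊢
    exact ⟨(erase_subset _ _).trans (hL R hR.1), hR.2.2, notMem_erase _ _,
      by rw [insert_erase hR.2.1]; exact hR.1⟩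
  · intro R hR
    simp only [mem_filter] at hR
    exact erase_insert hR.2.2.1
  · intro R hR
    simp only [mem_filter] at hR
    exact insert_erase hR.2.1

lemma wt_eq_sub (N : Finset ℕ) (L : Finset (Finset ℕ)) (hL : ∀ R ∈ L, R ⊆ N) :
    wt N L = (DNS N L).card - (UPS N L).card := by
  rw [CV.wt_eq N L hL, card_UPS, card_DNS N L hL]
  have h : ∀ i ∈ N, (L.card : ℤ) = 2 * ie L i + dn L i + up L i := by
    intro i _
    have e1 := CV.card_mem_notMem L i
    have e2 := CV.card_notMem L i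
    have e3 := card_mem L i
    have : L.card = 2 * ie L i + dn L i + up L i := by omega
    exact_mod_cast this
  have h2 : (N.card : ℤ) * L.card = ∑ i ∈ N, (2 * (ie L i : ℤ) + dn L i + up L i) := by
    rw [← sum_congr rfl h, sum_const, nsmul_eq_mul]
  rw [h2]
  push_cast
  rw [sum_add_distrib, sum_add_distrib, ← mul_sum]
  ring

/-- the data of the criterion on the set `N` with lower degree bound `s` -/
structure Cert (N : Finset ℕ) (K : Finset (Finset ℕ)) (w : Finset ℕ → ℚ) (s : ℚ) : Prop where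
  sub : ∀ A ∈ K, A ⊆ N
  nonneg : ∀ A ∈ K, 0 ≤ w A
  deg : ∀ x ∈ N, s ≤ ∑ A ∈ K.filter (fun A => x ∈ A), w A
  codeg : ∀ x ∈ N, ∀ y ∈ N, x ≠ y →
    ∑ A ∈ K.filter (fun A => x ∈ A ∧ y ∈ A), w A * psi A.card ≤ 1

theorem wt_nonneg (hflow : S_FLOW) (hinner : S_INNER) {N : Finset ℕ} {L K : Finset (Finset ℕ)}
    {w : Finset ℕ → ℚ} (hC : Cert N K w 1)
    (hL : ∀ R ∈ L, R ⊆ N) (hU : UC L) (hKL : ∀ A ∈ K, ∀ R ∈ L, A ∪ R ∈ L) : 0 ≤ wt N L := by
  have h := up_le_down hflow hinner hL hU hC.sub hKL hC.nonneg hC.deg hC.codeg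
  rw [one_mul] at h
  have h' : (UPS N L).card ≤ (DNS N L).card := by exact_mod_cast h
  rw [wt_eq_sub N L hL]
  omega

lemma full_of {N : Finset ℕ} {L : Finset (Finset ℕ)} (hL : ∀ R ∈ L, R ⊆ N) (hne : L.Nonempty)
    (h1 : UPS N L = ∅) (h2 : DNS N L = ∅) : ∀ S ⊆ N, S ∈ L := by
  have hadd : ∀ R ∈ L, ∀ i ∈ N, insert i R ∈ L := by
    intro R hR i hi
    by_contra h
    by_cases hiR : i ∈ R
    · exact h (by rw [insert_eq_of_mem hiR]; exact hR)
    · have : (R, i) ∈ UPS N L := by
        simp only [UPS, mem_filter, mem_product]; exact ⟨⟨hR, hi⟩, hiR, h⟩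
      rw [h1] at this; exact absurd this (notMem_empty _)
  have hsub : ∀ R ∈ L, ∀ i ∈ N, R.erase i ∈ L := by
    intro R hR i hi
    by_contra h
    by_cases hiR : i ∈ R
    · have : (R.erase i, i) ∈ DNS N L := by
        simp only [DNS, mem_filter, mem_product, mem_powerset]
        exact ⟨⟨(erase_subset _ _).trans (hL R hR), hi⟩, h, notMem_erase _ _,
          by rw [insert_erase hiR]; exact hR⟩
      rw [h2] at this; exact absurd this (notMem_empty _)
    · exact h (by rw [erase_eq_of_notMem hiR]; exact hR)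
  obtain ⟨R₀, hR₀⟩ := hne
  have hN : ∀ T ⊆ N, T ∪ R₀ ∈ L := by
    intro T
    induction T using Finset.induction_on with
    | empty => intro _; simpa using hR₀
    | insert a T _ ih =>
      intro hT
      rw [insert_subset_iff] at hT
      rw [insert_union]
      exact hadd _ (ih hT.2) _ hT.1
  have hNL : N ∈ L := by
    have := hN N (Subset.refl _)
    rwa [union_eq_left.2 (hL R₀ hR₀)] at this
  have hdel : ∀ T ⊆ N, N \ T ∈ L := by
    intro T
    induction T using Finset.induction_on with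
    | empty => intro _; simpa using hNL
    | insert a T _ ih =>
      intro hT
      rw [insert_subset_iff] at hT
      rw [sdiff_insert]
      exact hsub _ (ih hT.2) _ hT.1
  intro S hS
  have := hdel (N \ S) sdiff_subset
  rwa [Finset.sdiff_sdiff_eq_self hS] at this

theorem wt_pos (hflow : S_FLOW) (hinner : S_INNER) {N : Finset ℕ} {L K : Finset (Finset ℕ)}
    {w : Finset ℕ → ℚ} {s : ℚ} (hs : 1 < s) (hC : Cert N K w s)
    (hL : ∀ R ∈ L, R ⊆ N) (hU : UC L) (hKL : ∀ A ∈ K, ∀ R ∈ L, A ∪ R ∈ L) (hne : L.Nonempty)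
    {S : Finset ℕ} (hSN : S ⊆ N) (hSL : S ∉ L) : 0 < wt N L := by
  have h := up_le_down hflow hinner hL hU hC.sub hKL hC.nonneg hC.deg hC.codeg
  rw [wt_eq_sub N L hL]
  rcases Nat.eq_zero_or_pos (UPS N L).card with h0 | h0
  · have h1 : UPS N L = ∅ := card_eq_zero.1 h0
    have h2 : DNS N L ≠ ∅ := fun h2 => hSL (full_of hL hne h1 h2 S hSN)
    have := card_pos.2 (nonempty_iff_ne_empty.2 h2)
    omega
  · have h0' : (0 : ℚ) < (UPS N L).card := by exact_mod_cast h0
    have h3 : (1 : ℚ) * (UPS N L).card < s * (UPS N L).card := mul_lt_mul_of_pos_right hs h0'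
    have h4 : ((UPS N L).card : ℚ) < (DNS N L).card := by linarith
    have h5 : (UPS N L).card < (DNS N L).card := by exact_mod_cast h4
    omega

/-- The criterion, average form. -/
theorem average (hflow : S_FLOW) (hinner : S_INNER) {F : Finset (Finset ℕ)} (hF : UC F)
    {N : Finset ℕ} {K : Finset (Finset ℕ)} (hKF : K ⊆ F) {w : Finset ℕ → ℚ}
    (hC : Cert N K w 1) : F.card * N.card ≤ 2 * ∑ A ∈ F, (A ∩ N).card := by
  have h1 := CV.sum_main F N
  have h2 : 0 ≤ ∑ x ∈ N, (2 * ((F.filter (fun S => x ∈ S)).card : ℤ) - F.card) := by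
    rw [← h1]
    refine sum_nonneg fun T _ => ?_
    exact wt_nonneg hflow hinner hC (fun R hR => (N361.FC.mem_slice.1 hR).1) (CV.slice_uc hF N T)
      (fun A hA R hR => CV.slice_K hF N T A (hKF hA) (hC.sub A hA) R hR)
  have h3 : ∑ A ∈ F, (A ∩ N).card = ∑ x ∈ N, (F.filter (fun S => x ∈ S)).card := by
    have : ∀ A ∈ F, (A ∩ N).card = ∑ x ∈ N, if x ∈ A then 1 else 0 := by
      intro A _
      rw [← card_filter]
      congr 1
      ext y
      simp only [mem_inter, mem_filter]
      tauto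
    rw [sum_congr rfl this, sum_comm]
    exact sum_congr rfl fun i _ => (card_filter _ _).symm
  rw [h3]
  rw [sum_sub_distrib, ← mul_sum, sum_const, nsmul_eq_mul] at h2
  have h4 : ((F.card * N.card : ℕ) : ℤ) ≤ ((2 * ∑ x ∈ N, (F.filter (fun S => x ∈ S)).card : ℕ) : ℤ) := by
    push_cast
    linarith
  exact_mod_cast h4

/-- The criterion: some point of `N` is in at least half of the members. -/
theorem abundant (hflow : S_FLOW) (hinner : S_INNER) {F : Finset (Finset ℕ)} (hF : UC F)
    {N : Finset ℕ} (hN : N.Nonempty) {K : Finset (Finset ℕ)} (hKF : K ⊆ F) {w : Finset ℕ → ℚ}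
    (hC : Cert N K w 1) : ∃ x ∈ N, F.card ≤ 2 * (F.filter (fun S => x ∈ S)).card := by
  have h1 := CV.sum_main F N
  have h2 : 0 ≤ ∑ x ∈ N, (2 * ((F.filter (fun S => x ∈ S)).card : ℤ) - F.card) := by
    rw [← h1]
    refine sum_nonneg fun T _ => ?_
    exact wt_nonneg hflow hinner hC (fun R hR => (N361.FC.mem_slice.1 hR).1) (CV.slice_uc hF N T)
      (fun A hA R hR => CV.slice_K hF N T A (hKF hA) (hC.sub A hA) R hR)
  by_contra hcon
  push Not at hcon
  have h3 : ∑ x ∈ N, (2 * ((F.filter (fun S => x ∈ S)).card : ℤ) - F.card) < 0 := by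
    apply sum_neg'
    · intro x hx
      have := hcon x hx
      omega
    · obtain ⟨x, hx⟩ := hN
      exact ⟨x, hx, by have := hcon x hx; omega⟩
  omega

/-- The strict form. -/
theorem strict (hflow : S_FLOW) (hinner : S_INNER) {F : Finset (Finset ℕ)} (hF : UC F)
    {N : Finset ℕ} {K : Finset (Finset ℕ)} (hKF : K ⊆ F) {w : Finset ℕ → ℚ} {s : ℚ} (hs : 1 < s)
    (hC : Cert N K w s) : (∃ x ∈ N, F.card < 2 * (F.filter (fun S => x ∈ S)).card) ∨
      ∀ S ∈ F, ∀ R ⊆ N, (S \ N) ∪ R ∈ F := by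
  have h1 := CV.sum_main F N
  have hC1 : Cert N K w 1 :=
    ⟨hC.sub, hC.nonneg, fun x hx => hs.le.trans (hC.deg x hx), hC.codeg⟩
  have hs' : ∀ T, ∀ R ∈ slice N F T, R ⊆ N := fun T R hR => (N361.FC.mem_slice.1 hR).1
  have hKs : ∀ T, ∀ A ∈ K, ∀ R ∈ slice N F T, A ∪ R ∈ slice N F T :=
    fun T A hA R hR => CV.slice_K hF N T A (hKF hA) (hC.sub A hA) R hR
  by_cases hall : ∀ S ∈ F, ∀ R ⊆ N, (S \ N) ∪ R ∈ F
  · exact Or.inr hall
  left
  push Not at hall
  obtain ⟨S, hS, R, hR, hSR⟩ := hall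
  have hpos : 0 < ∑ T ∈ ((F.biUnion id) \ N).powerset, wt N (slice N F T) := by
    apply sum_pos'
    · intro T _
      exact wt_nonneg hflow hinner hC1 (hs' T) (CV.slice_uc hF N T) (hKs T)
    · refine ⟨S \ N, ?_, ?_⟩
      · rw [mem_powerset]
        exact sdiff_subset_sdiff (subset_biUnion_of_mem id hS) (Subset.refl _)
      · refine wt_pos hflow hinner hs hC (hs' _) (CV.slice_uc hF N _) (hKs _) ?_ (S := R) hR ?_
        · refine ⟨S ∩ N, ?_⟩
          rw [N361.FC.mem_slice]
          refine ⟨inter_subset_right, ?_⟩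
          have : S ∩ N ∪ S \ N = S := by
            ext y; simp only [mem_union, mem_inter, mem_sdiff]; tauto
          rw [this]; exact hS
        · intro h
          rw [N361.FC.mem_slice] at h
          exact hSR (by rw [union_comm]; exact h.2)
  rw [h1] at hpos
  by_contra hcon
  push Not at hcon
  have h3 : ∑ x ∈ N, (2 * ((F.filter (fun S => x ∈ S)).card : ℤ) - F.card) ≤ 0 := by
    apply sum_nonpos
    intro x hx
    have := hcon x hx
    omega
  omega

end Pool.Agent.N361.DC
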