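import Mathlib

/-!
# The degree-codegree criterion for union-closed families: definitions and statements of the parts
-/

set_option autoImplicit false

namespace Pool.Agent.N361.DC

open Finset

/-- Union-closed families. -/
def UC (F : Finset (Finset ℕ)) : Prop := ∀ A ∈ F, ∀ B ∈ F, A ∪ B ∈ F

/-- the weight `a! (c-1)! / (a+c)!` of an edge of the cube that is step number `a + 1` on the way up
and after which `c - 1` elements are missing -/
def bet (a c : ℕ) : ℚ := ((a.factorial * (c - 1).factorial : ℕ) : ℚ) / ((a + c).factorial : ℕ)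

/-- `(2^(k-1) - 1)/(k - 1)` -/
def psi (k : ℕ) : ℚ := (2 ^ (k - 1) - 1) / ((k - 1 : ℕ) : ℚ)

/-- part FLOW: the number of entries into `f` on a random path from `∅` to `X` -/
def S_FLOW : Prop := ∀ (X : Finset ℕ) (f : Finset ℕ → Prop) [DecidablePred f], ¬ f ∅ → f X →
  1 ≤ ∑ Z ∈ X.powerset, ∑ j ∈ X \ Z,
    (if ¬ f Z ∧ f (insert j Z) then bet Z.card (X \ Z).card else 0)

/-- part NUM -/
def S_NUM : Prop := ∀ n u c : ℕ, 1 ≤ n → 1 ≤ c →
  (n : ℚ) * ∑ p ∈ range (u + 1), (u.choose p : ℚ) * bet (n - 1 + p) c ≤ psi (n + u + c)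

/-- part INNER: the load of a down edge inside one member `A` -/
def S_INNER : Prop := ∀ (L : Finset (Finset ℕ)) (S A U : Finset ℕ), UC L → U ∈ L → U ⊆ S → U ≠ S →
  (∀ R ∈ L, R ⊆ S → R ⊆ U) → ¬ A ⊆ S →
  ∑ R ∈ L, ∑ i ∈ A, (if i ∉ R ∧ insert i R ∉ L ∧ insert i R ⊆ S ∧ S \ insert i R ⊆ A then
    bet (S \ insert i R).card (A \ S).card else 0) ≤ psi A.card

/-- part CORE: a hypergraph with at least `c n` members has a part of minimum degree at least `c` -/
def S_CORE : Prop := ∀ (N : Finset ℕ) (K : Finset (Finset ℕ)) (c : ℚ), N.Nonempty →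
  (∀ A ∈ K, A ⊆ N ∧ A.Nonempty) → c * N.card ≤ K.card →
  ∃ M ⊆ N, M.Nonempty ∧ ∀ x ∈ M, c ≤ (K.filter (fun A => A ⊆ M ∧ x ∈ A)).card

/-- part MONO: the density of a decreasing property of families decreases with the size -/
def S_MONO : Prop := ∀ (X : Finset (Finset ℕ)) (P : Finset (Finset ℕ) → Prop) [DecidablePred P],
  (∀ B' ⊆ X, P B' → ∀ B ⊆ B', P B) → ∀ m₀ m : ℕ, m₀ ≤ m → m ≤ X.card →
  ((powersetCard m X).filter P).card * (powersetCard m₀ X).card ≤
    ((powersetCard m₀ X).filter P).card * (powersetCard m X).card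

/-- the number of ordered pairs of different members with at least two common elements -/
def conf (B : Finset (Finset ℕ)) : ℕ := (B.offDiag.filter (fun p => 2 ≤ (p.1 ∩ p.2).card)).card

/-- part CONF: the average of `conf` over the families of `m ≤ D n` sets of size `k` is bounded -/
def S_CONF : Prop := ∀ k : ℕ, 3 ≤ k → ∀ D : ℕ, ∃ C : ℕ, ∀ n m : ℕ, m ≤ D * n →
  ∑ B ∈ powersetCard m (powersetCard k (range n)), conf B ≤
    C * (powersetCard m (powersetCard k (range n))).card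

/-- part LOW: disjoint sets of size at least 3 do not suffice -/
def S_LOW : Prop := ∀ k n : ℕ, 3 ≤ k → 14 * k ≤ n → ∃ F K : Finset (Finset ℕ), UC F ∧ K ⊆ F ∧
  (∀ A ∈ K, A ⊆ range n ∧ A.card = k) ∧ (∀ A ∈ K, ∀ B ∈ K, A ≠ B → Disjoint A B) ∧
  n / k ≤ K.card ∧ ∀ x ∈ range n, 2 * (F.filter (fun S => x ∈ S)).card < F.card

end Pool.Agent.N361.DC
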