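import Pool.Agent.N361.DC.Def
import Pool.Agent.N361.CV.Core
import Pool.Agent.N361.CV.Main

/-!
# The degree-codegree criterion: the global double counting
-/

set_option autoImplicit false

namespace Pool.Agent.N361.DC

open Finset
open Pool.Agent.N361.CV (wt ie up)

/-- the upward edges that leave `L` -/
def UPS (N : Finset ℕ) (L : Finset (Finset ℕ)) : Finset (Finset ℕ × ℕ) :=
  (L ×ˢ N).filter (fun p => p.2 ∉ p.1 ∧ insert p.2 p.1 ∉ L)

/-- the upward edges that enter `L` -/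
def DNS (N : Finset ℕ) (L : Finset (Finset ℕ)) : Finset (Finset ℕ × ℕ) :=
  (N.powerset ×ˢ N).filter (fun q => q.1 ∉ L ∧ q.2 ∉ q.1 ∧ insert q.2 q.1 ∈ L)

/-- the weight sent by the pair `p` through the set `A` to the edge `q` -/
def fl (A : Finset ℕ) (p q : Finset ℕ × ℕ) : ℚ :=
  if p.2 ∈ A ∧ insert p.2 p.1 ⊆ q.1 ∧ q.1 \ insert p.2 p.1 ⊆ A ∧ q.2 ∈ A then
    bet (q.1 \ insert p.2 p.1).card (A \ q.1).card else 0

lemma bet_nonneg (a c : ℕ) : 0 ≤ bet a c := by unfold bet; positivity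

lemma fl_nonneg (A : Finset ℕ) (p q : Finset ℕ × ℕ) : 0 ≤ fl A p q := by
  unfold fl; split_ifs
  · exact bet_nonneg _ _
  · exact le_refl _

lemma psi_nonneg (k : ℕ) : 0 ≤ psi k := by
  unfold psi
  apply div_nonneg
  · have : (1 : ℚ) ≤ 2 ^ (k - 1) := one_le_pow₀ (by norm_num)
    linarith
  · positivity

lemma flow_one (hflow : S_FLOW) {N : Finset ℕ} {L : Finset (Finset ℕ)} (hL : ∀ R ∈ L, R ⊆ N)
    {A : Finset ℕ} (hAN : A ⊆ N) (hA : ∀ R ∈ L, A ∪ R ∈ L) {p : Finset ℕ × ℕ} (hp : p ∈ UPS N L)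
    (hpA : p.2 ∈ A) : 1 ≤ ∑ q ∈ DNS N L, fl A p q := by
  obtain ⟨R, i⟩ := p
  simp only [UPS, mem_filter, mem_product] at hp
  obtain ⟨⟨hR, hi⟩, hiR, hIR⟩ := hp
  simp only at hpA
  set W := insert i R with hW
  set X := A \ W with hX
  have h := hflow X (fun Z => W ∪ Z ∈ L) (by simpa using hIR) (by
    have : W ∪ X = A ∪ R := by
      rw [hX, union_sdiff_self_eq_union, hW, insert_union, union_comm R A,
        insert_eq_of_mem (mem_union_left _ hpA)]
    show W ∪ X ∈ L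
    rw [this]
    exact hA R hR)
  refine h.trans ?_
  have hWN : W ⊆ N := insert_subset hi (hL R hR)
  rw [sum_sigma']
  rw [← sum_filter]
  refine (sum_le_sum_of_subset_of_nonneg (s := (image (fun z : (_ : Finset ℕ) × ℕ => (W ∪ z.1, z.2))
      (filter (fun z : (_ : Finset ℕ) × ℕ => ¬ (W ∪ z.1 ∈ L) ∧ W ∪ insert z.2 z.1 ∈ L)
        (X.powerset.sigma (fun Z => X \ Z))))) (f := fun q => fl A (R, i) q) ?_ ?_).trans' ?_
  · intro q hq
    rw [mem_image] at hq
    obtain ⟨⟨Z, j⟩, hz, rfl⟩ := hq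
    simp only [mem_filter, mem_sigma, mem_powerset, mem_sdiff] at hz
    obtain ⟨⟨hZX, hjX, hjZ⟩, h1, h2⟩ := hz
    simp only [DNS, mem_filter, mem_product, mem_powerset]
    rw [hX, mem_sdiff] at hjX
    refine ⟨⟨union_subset hWN (hZX.trans (sdiff_subset.trans hAN)), hAN hjX.1⟩, h1, ?_, ?_⟩
    · rw [mem_union]; rintro (h | h)
      · exact hjX.2 h
      · exact hjZ h
    · rw [← union_insert]; exact h2
  · intro q _ _
    exact fl_nonneg _ _ _
  · rw [sum_image]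
    · refine sum_le_sum fun z hz => ?_
      obtain ⟨Z, j⟩ := z
      simp only [mem_filter, mem_sigma, mem_powerset, mem_sdiff] at hz
      obtain ⟨⟨hZX, hjX, hjZ⟩, h1, h2⟩ := hz
      rw [hX, mem_sdiff] at hjX
      have hdis : Disjoint Z W := disjoint_of_subset_left hZX sdiff_disjoint
      have e1 : (W ∪ Z) \ W = Z := by
        rw [union_sdiff_left, sdiff_eq_self_of_disjoint hdis]
      have e2 : A \ (W ∪ Z) = X \ Z := by
        rw [hX, sdiff_sdiff_left]; rfl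
      unfold fl
      simp only
      rw [← hW, e1, e2, if_pos]
      exact ⟨hpA, subset_union_left, hZX.trans sdiff_subset, hjX.1⟩
    · rintro ⟨Z, j⟩ hz ⟨Z', j'⟩ hz' he
      simp only [coe_filter, mem_sigma, mem_powerset, mem_sdiff, Set.mem_ofPred_eq] at hz hz'
      simp only [Prod.mk.injEq] at he
      obtain ⟨he1, he2⟩ := he
      have hd1 : Disjoint Z W := disjoint_of_subset_left hz.1.1 sdiff_disjoint
      have hd2 : Disjoint Z' W := disjoint_of_subset_left hz'.1.1 sdiff_disjoint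
      have : Z = Z' := by
        have h3 := congrArg (fun s => s \ W) he1
        simp only [union_sdiff_left] at h3
        rwa [sdiff_eq_self_of_disjoint hd1, sdiff_eq_self_of_disjoint hd2] at h3
      subst this; subst he2; rfl

lemma load_A (hinner : S_INNER) {N : Finset ℕ} {L : Finset (Finset ℕ)} (hU : UC L)
    {A : Finset ℕ} {q : Finset ℕ × ℕ} (hq : q ∈ DNS N L) {U : Finset ℕ} (hUL : U ∈ L)
    (hUS : U ⊆ q.1) (hmax : ∀ R ∈ L, R ⊆ q.1 → R ⊆ U) (hjA : q.2 ∈ A) :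
    ∑ p ∈ UPS N L, fl A p q ≤ psi A.card := by
  obtain ⟨S, j⟩ := q
  simp only [DNS, mem_filter, mem_product, mem_powerset] at hq
  obtain ⟨⟨hSN, hj⟩, hSL, hjS, hjL⟩ := hq
  simp only at hUS hmax hjA
  have hUS' : U ≠ S := by rintro rfl; exact hSL hUL
  have hAS : ¬ A ⊆ S := fun h => hjS (h hjA)
  refine le_trans ?_ (hinner L S A U hU hUL hUS hUS' hmax hAS)
  rw [← sum_product']
  have e : ∑ p ∈ UPS N L, fl A p (S, j) = ∑ p ∈ (UPS N L).filter (fun p => p.2 ∈ A),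
      fl A p (S, j) := by
    rw [sum_filter]
    refine sum_congr rfl fun p _ => ?_
    split_ifs with h
    · rfl
    · unfold fl; rw [if_neg]; tauto
  rw [e]
  refine (sum_le_sum_of_subset_of_nonneg (t := L ×ˢ A) (f := fun p : Finset ℕ × ℕ =>
    (if p.2 ∉ p.1 ∧ insert p.2 p.1 ∉ L ∧ insert p.2 p.1 ⊆ S ∧ S \ insert p.2 p.1 ⊆ A then
    bet (S \ insert p.2 p.1).card (A \ S).card else 0)) (s := (UPS N L).filter (fun p => p.2 ∈ A))
    ?_ ?_).trans' ?_
  · intro p hp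
    simp only [UPS, mem_filter, mem_product] at hp ⊢
    exact ⟨hp.1.1.1, hp.2⟩
  · intro p _ _
    split_ifs
    · exact bet_nonneg _ _
    · exact le_refl _
  · refine sum_le_sum fun p hp => ?_
    simp only [UPS, mem_filter, mem_product] at hp
    unfold fl
    by_cases h : insert p.2 p.1 ⊆ S ∧ S \ insert p.2 p.1 ⊆ A
    · rw [if_pos ⟨hp.2, h.1, h.2, hjA⟩, if_pos ⟨hp.1.2.1, hp.1.2.2, h.1, h.2⟩]
    · rw [if_neg (fun hc => h ⟨hc.2.1, hc.2.2.1⟩), if_neg (fun hc => h ⟨hc.2.2.1, hc.2.2.2⟩)]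

lemma load (hinner : S_INNER) {N : Finset ℕ} {L K : Finset (Finset ℕ)} (hU : UC L)
    {w : Finset ℕ → ℚ} (hw : ∀ A ∈ K, 0 ≤ w A)
    (h2 : ∀ x ∈ N, ∀ y ∈ N, x ≠ y →
      ∑ A ∈ K.filter (fun A => x ∈ A ∧ y ∈ A), w A * psi A.card ≤ 1)
    {q : Finset ℕ × ℕ} (hq : q ∈ DNS N L) :
    ∑ A ∈ K, w A * ∑ p ∈ UPS N L, fl A p q ≤ 1 := by
  by_cases hex : ∃ R ∈ L, R ⊆ q.1
  · obtain ⟨R₀, hR₀, hR₀S⟩ := hex
    obtain ⟨U, hUm, hmax⟩ := exists_max_image (L.filter (fun R => R ⊆ q.1)) card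
      ⟨R₀, mem_filter.2 ⟨hR₀, hR₀S⟩⟩
    rw [mem_filter] at hUm
    have hmax' : ∀ R ∈ L, R ⊆ q.1 → R ⊆ U := by
      intro R hR hRS
      have h1 : R ∪ U ∈ L := hU R hR U hUm.1
      have h2 := hmax (R ∪ U) (mem_filter.2 ⟨h1, union_subset hRS hUm.2⟩)
      have h3 : U = R ∪ U := eq_of_subset_of_card_le subset_union_right h2
      rw [h3]; exact subset_union_left
    have hq' := hq
    simp only [DNS, mem_filter, mem_product, mem_powerset] at hq'
    have hne : U ≠ q.1 := by intro h; exact hq'.2.1 (h ▸ hUm.1)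
    obtain ⟨x, hxS, hxU⟩ := exists_of_ssubset (hUm.2.ssubset_of_ne hne)
    refine le_trans ?_ (h2 x (hq'.1.1 hxS) q.2 hq'.1.2 (by rintro rfl; exact hq'.2.2.1 hxS))
    rw [sum_filter]
    refine sum_le_sum fun A hA => ?_
    split_ifs with hc
    · exact mul_le_mul_of_nonneg_left (load_A hinner hU hq hUm.1 hUm.2 hmax' hc.2) (hw A hA)
    · have : ∑ p ∈ UPS N L, fl A p q = 0 := by
        refine sum_eq_zero fun p hp => ?_
        unfold fl
        rw [if_neg]
        rintro ⟨g1, g2, g3, g4⟩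
        apply hc
        refine ⟨?_, g4⟩
        simp only [UPS, mem_filter, mem_product] at hp
        have hpU : p.1 ⊆ U := hmax' p.1 hp.1.1 ((subset_insert _ _).trans g2)
        by_cases hxi : x = p.2
        · rw [hxi]; exact g1
        · apply g3
          rw [mem_sdiff, mem_insert, not_or]
          exact ⟨hxS, hxi, fun h => hxU (hpU h)⟩
      rw [this, mul_zero]
  · have : ∀ A ∈ K, w A * ∑ p ∈ UPS N L, fl A p q = 0 := by
      intro A _
      have : ∑ p ∈ UPS N L, fl A p q = 0 := by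
        refine sum_eq_zero fun p hp => ?_
        unfold fl
        rw [if_neg]
        rintro ⟨_, g2, _, _⟩
        simp only [UPS, mem_filter, mem_product] at hp
        exact hex ⟨p.1, hp.1.1, (subset_insert _ _).trans g2⟩
      rw [this, mul_zero]
    rw [sum_congr rfl this]
    simp

theorem up_le_down (hflow : S_FLOW) (hinner : S_INNER) {N : Finset ℕ} {L K : Finset (Finset ℕ)}
    (hL : ∀ R ∈ L, R ⊆ N) (hU : UC L) (hK : ∀ A ∈ K, A ⊆ N) (hKL : ∀ A ∈ K, ∀ R ∈ L, A ∪ R ∈ L)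
    {w : Finset ℕ → ℚ} (hw : ∀ A ∈ K, 0 ≤ w A) {s : ℚ}
    (h1 : ∀ x ∈ N, s ≤ ∑ A ∈ K.filter (fun A => x ∈ A), w A)
    (h2 : ∀ x ∈ N, ∀ y ∈ N, x ≠ y →
      ∑ A ∈ K.filter (fun A => x ∈ A ∧ y ∈ A), w A * psi A.card ≤ 1) :
    s * (UPS N L).card ≤ (DNS N L).card := by
  calc s * (UPS N L).card = ∑ p ∈ UPS N L, s := by rw [sum_const, nsmul_eq_mul, mul_comm]
    _ ≤ ∑ p ∈ UPS N L, ∑ A ∈ K, w A * ∑ q ∈ DNS N L, fl A p q := by
        refine sum_le_sum fun p hp => ?_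
        have hpN : p.2 ∈ N := by
          simp only [UPS, mem_filter, mem_product] at hp; exact hp.1.2
        refine (h1 p.2 hpN).trans ?_
        rw [sum_filter]
        refine sum_le_sum fun A hA => ?_
        split_ifs with h
        · have := flow_one hflow hL (hK A hA) (hKL A hA) hp h
          have h3 := mul_le_mul_of_nonneg_left this (hw A hA)
          rwa [mul_one] at h3
        · exact mul_nonneg (hw A hA) (sum_nonneg fun q _ => fl_nonneg _ _ _)
    _ = ∑ q ∈ DNS N L, ∑ A ∈ K, w A * ∑ p ∈ UPS N L, fl A p q := by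
        simp only [mul_sum]
        rw [sum_comm]
        conv_rhs => rw [sum_comm]
        refine sum_congr rfl fun A _ => ?_
        rw [sum_comm]
    _ ≤ ∑ q ∈ DNS N L, 1 := sum_le_sum fun q hq => load hinner hU hw h2 hq
    _ = (DNS N L).card := by simp

end Pool.Agent.N361.DC
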