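import Pool.Agent.N361.DC.Cor

/-!
# Corollaries: almost all families, linear families
-/

set_option autoImplicit false

namespace Pool.Agent.N361.DC

open Finset

/-- the members that share at most one element with every other member -/
def lin (B : Finset (Finset ℕ)) : Finset (Finset ℕ) :=
  B.filter (fun A => ∀ A' ∈ B, A' ≠ A → (A ∩ A').card ≤ 1)

lemma card_le_lin (B : Finset (Finset ℕ)) : B.card ≤ (lin B).card + conf B := by
  have h1 := Finset.card_filter_add_card_filter_not (s := B)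
    (fun A => ∀ A' ∈ B, A' ≠ A → (A ∩ A').card ≤ 1)
  have h2 : (B.filter (fun A => ¬ ∀ A' ∈ B, A' ≠ A → (A ∩ A').card ≤ 1)).card ≤ conf B := by
    unfold conf
    have h3 : B.filter (fun A => ¬ ∀ A' ∈ B, A' ≠ A → (A ∩ A').card ≤ 1) ⊆
        (B.offDiag.filter (fun p => 2 ≤ (p.1 ∩ p.2).card)).image Prod.fst := by
      intro A hA
      rw [mem_filter] at hA
      push Not at hA
      obtain ⟨hAB, A', hA', hne, h⟩ := hA
      rw [mem_image]
      exact ⟨(A, A'), mem_filter.2 ⟨mem_offDiag.2 ⟨hAB, hA', Ne.symm hne⟩, h⟩, rfl⟩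
    exact (card_le_card h3).trans card_image_le
  unfold lin
  omega

lemma lin_lin {B : Finset (Finset ℕ)} : ∀ A ∈ lin B, ∀ A' ∈ lin B, A ≠ A' → (A ∩ A').card ≤ 1 := by
  intro A hA A' hA' hne
  unfold lin at hA hA'
  rw [mem_filter] at hA hA'
  exact hA.2 A' hA'.1 (Ne.symm hne)

lemma codeg_one {K : Finset (Finset ℕ)} (hlin : ∀ A ∈ K, ∀ A' ∈ K, A ≠ A' → (A ∩ A').card ≤ 1)
    {x y : ℕ} (hxy : x ≠ y) : (K.filter (fun A => x ∈ A ∧ y ∈ A)).card ≤ 1 := by
  rw [card_le_one]
  intro A hA A' hA'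
  rw [mem_filter] at hA hA'
  by_contra hne
  have h1 := hlin A hA.1 A' hA'.1 hne
  have h2 : ({x, y} : Finset ℕ) ⊆ A ∩ A' := by
    intro z hz
    simp only [mem_insert, mem_singleton] at hz
    rw [mem_inter]
    rcases hz with rfl | rfl
    · exact ⟨hA.2.1, hA'.2.1⟩
    · exact ⟨hA.2.2, hA'.2.2⟩
  have h3 := card_le_card h2
  rw [card_pair hxy] at h3
  omega

/-- General form of the statement on almost all families: `P` is a decreasing property of families
which excludes large linear subfamilies. -/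
theorem almost_gen (hmono : S_MONO) (hconf : S_CONF) (k : ℕ) (hk : 3 ≤ k) : ∃ C : ℕ, ∀ n m : ℕ,
    2 ^ (k - 1) * n ≤ (k - 1) * m → ∀ (P : Finset (Finset ℕ) → Prop) [DecidablePred P],
    (∀ B' ⊆ powersetCard k (range n), P B' → ∀ B ⊆ B', P B) →
    (1 ≤ n → ∀ B ⊆ powersetCard k (range n), P B → ∀ K ⊆ B,
      (∀ A ∈ K, ∀ A' ∈ K, A ≠ A' → (A ∩ A').card ≤ 1) →
      (k - 1) * K.card ≤ (2 ^ (k - 1) - 1) * n) →
    n * ((powersetCard m (powersetCard k (range n))).filter P).card ≤
      C * (powersetCard m (powersetCard k (range n))).card := by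
  obtain ⟨C₀, hC₀⟩ := hconf k hk (2 ^ (k - 1))
  refine ⟨(k - 1) * C₀, ?_⟩
  intro n m hnm P _ hdown hlin
  set X := powersetCard k (range n) with hX
  rcases Nat.eq_zero_or_pos n with hn | hn
  · rw [hn, zero_mul]; exact Nat.zero_le _
  rcases lt_or_ge X.card m with hm | hm
  · rw [powersetCard_eq_empty.2 hm]; simp
  -- the minimal admissible size
  have hex : ∃ m₀, 2 ^ (k - 1) * n ≤ (k - 1) * m₀ := ⟨m, hnm⟩
  set m₀ := Nat.find hex with hm₀
  have h1 : 2 ^ (k - 1) * n ≤ (k - 1) * m₀ := Nat.find_spec hex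
  have h2 : m₀ ≤ m := Nat.find_min' hex hnm
  have h3 : m₀ ≤ 2 ^ (k - 1) * n := Nat.find_min' hex (Nat.le_mul_of_pos_left _ (by omega))
  have h4 := hC₀ n m₀ h3
  rw [← hX] at h4
  have h5 : n * ((powersetCard m₀ X).filter P).card ≤
      ∑ B ∈ powersetCard m₀ X, (k - 1) * conf B := by
    calc n * ((powersetCard m₀ X).filter P).card = ∑ B ∈ (powersetCard m₀ X).filter P, n := by
          rw [sum_const, smul_eq_mul, mul_comm]
      _ ≤ ∑ B ∈ (powersetCard m₀ X).filter P, (k - 1) * conf B := by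
          refine sum_le_sum fun B hB => ?_
          rw [mem_filter, mem_powersetCard] at hB
          have h6 := hlin hn B hB.1.1 hB.2 (lin B) (filter_subset _ _) lin_lin
          have h7 := card_le_lin B
          rw [hB.1.2] at h7
          have h8 : (k - 1) * m₀ ≤ (k - 1) * (lin B).card + (k - 1) * conf B := by
            rw [← mul_add]; exact Nat.mul_le_mul_left _ h7
          have h9 : (2 ^ (k - 1) - 1) * n + n = 2 ^ (k - 1) * n := by
            rw [Nat.sub_mul, one_mul, Nat.sub_add_cancel]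
            exact Nat.le_mul_of_pos_left _ (by positivity)
          omega
      _ ≤ ∑ B ∈ powersetCard m₀ X, (k - 1) * conf B :=
          sum_le_sum_of_subset (filter_subset _ _)
  rw [← mul_sum] at h5
  have h6 : n * ((powersetCard m₀ X).filter P).card ≤ (k - 1) * C₀ * (powersetCard m₀ X).card := by
    refine h5.trans ?_
    rw [mul_assoc]
    exact Nat.mul_le_mul_left _ h4
  have h7 := hmono X P hdown m₀ m h2 hm
  have h8 : 0 < (powersetCard m₀ X).card := by
    rw [card_powersetCard]; exact Nat.choose_pos (h2.trans hm)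
  refine Nat.le_of_mul_le_mul_right (c := (powersetCard m₀ X).card) ?_ h8
  calc n * ((powersetCard m X).filter P).card * (powersetCard m₀ X).card
      = n * (((powersetCard m X).filter P).card * (powersetCard m₀ X).card) := by ring
    _ ≤ n * (((powersetCard m₀ X).filter P).card * (powersetCard m X).card) :=
        Nat.mul_le_mul_left _ h7
    _ = (n * ((powersetCard m₀ X).filter P).card) * (powersetCard m X).card := by ring
    _ ≤ ((k - 1) * C₀ * (powersetCard m₀ X).card) * (powersetCard m X).card :=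
        Nat.mul_le_mul_right _ h6
    _ = (k - 1) * C₀ * (powersetCard m X).card * (powersetCard m₀ X).card := by ring

/-- `F` is a union-closed family containing `B` without a point of `range n` in half of its
members -/
def Bad (n : ℕ) (B : Finset (Finset ℕ)) : Prop := ∃ F : Finset (Finset ℕ), UC F ∧ B ⊆ F ∧
  ∀ x ∈ range n, 2 * (F.filter (fun S => x ∈ S)).card < F.card

theorem almost (hflow : S_FLOW) (hinner : S_INNER) (hcore : S_CORE) (hmono : S_MONO)
    (hconf : S_CONF) (k : ℕ) (hk : 3 ≤ k) : ∃ C : ℕ, ∀ n m : ℕ,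
    2 ^ (k - 1) * n ≤ (k - 1) * m → ∀ [DecidablePred (Bad n)],
    n * ((powersetCard m (powersetCard k (range n))).filter (Bad n)).card ≤
      C * (powersetCard m (powersetCard k (range n))).card := by
  obtain ⟨C, hC⟩ := almost_gen hmono hconf k hk
  refine ⟨C, ?_⟩
  intro n m hnm _
  refine hC n m hnm (Bad n) ?_ ?_
  · rintro B' _ ⟨F, hF, hBF, h⟩ B hB
    exact ⟨F, hF, hB.trans hBF, h⟩
  · rintro hn B hB ⟨F, hF, hBF, h⟩ K hK hlin
    by_contra hcon
    push Not at hcon
    obtain ⟨x, hx, hab⟩ := codeg hflow hinner hcore hF (N := range n)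
      (nonempty_range_iff.2 (by omega)) (hK.trans hBF) (k := k) (l := 1) (by omega) le_rfl
      (fun A hA => mem_powersetCard.1 (hB (hK hA)))
      (fun x _ y _ hxy => codeg_one hlin hxy) (by rw [one_mul, card_range]; exact hcon.le)
    have := h x hx
    omega

/-- the least number of members of a linear `k`-uniform subfamily on `range n` that forces an
abundant point -/
noncomputable def LFC (k n : ℕ) : ℕ :=
  sInf {m : ℕ | ∀ F K : Finset (Finset ℕ), UC F → K ⊆ F → (∀ A ∈ K, A ⊆ range n ∧ A.card = k) →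
    (∀ A ∈ K, ∀ B ∈ K, A ≠ B → (A ∩ B).card ≤ 1) → m ≤ K.card →
    ∃ x ∈ range n, F.card ≤ 2 * (F.filter (fun S => x ∈ S)).card}

theorem threshold (hflow : S_FLOW) (hinner : S_INNER) (hcore : S_CORE) (hlow : S_LOW)
    (k : ℕ) (hk : 3 ≤ k) (n : ℕ) (hn : 14 * k ≤ n) :
    n < k * LFC k n ∧ (k - 1) * LFC k n ≤ 2 ^ (k - 1) * n := by
  have hn1 : 1 ≤ n := by omega
  have hup : ∀ m, (2 ^ (k - 1) - 1) * n ≤ (k - 1) * m → m ∈ {m : ℕ | ∀ F K : Finset (Finset ℕ),
      UC F → K ⊆ F → (∀ A ∈ K, A ⊆ range n ∧ A.card = k) →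
      (∀ A ∈ K, ∀ B ∈ K, A ≠ B → (A ∩ B).card ≤ 1) → m ≤ K.card →
      ∃ x ∈ range n, F.card ≤ 2 * (F.filter (fun S => x ∈ S)).card} := by
    intro m hm F K hF hKF hK hlin hmK
    refine codeg hflow hinner hcore hF (N := range n)
      (nonempty_range_iff.2 (by omega)) hKF (k := k) (l := 1) (by omega) le_rfl hK
      (fun x _ y _ hxy => codeg_one hlin hxy) ?_
    rw [one_mul, card_range]
    exact hm.trans (Nat.mul_le_mul_left _ hmK)
  have hex : ∃ m, (2 ^ (k - 1) - 1) * n ≤ (k - 1) * m :=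
    ⟨(2 ^ (k - 1) - 1) * n, Nat.le_mul_of_pos_left _ (by omega)⟩
  constructor
  · obtain ⟨F, K, hF, hKF, hK, hdis, hcard, hrare⟩ := hlow k n hk hn
    have hlin : ∀ A ∈ K, ∀ B ∈ K, A ≠ B → (A ∩ B).card ≤ 1 := by
      intro A hA B hB hne
      rw [disjoint_iff_inter_eq_empty.1 (hdis A hA B hB hne)]; simp
    have hmem := Nat.sInf_mem (⟨_, hup _ (Nat.find_spec hex)⟩ : Set.Nonempty _)
    have h1 : K.card < LFC k n := by
      by_contra hcon
      push Not at hcon
      obtain ⟨x, hx, hab⟩ := hmem F K hF hKF hK hlin hcon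
      have := hrare x hx
      omega
    have h2 : n / k + 1 ≤ LFC k n := by omega
    have h3 : k * (n / k + 1) ≤ k * LFC k n := Nat.mul_le_mul_left _ h2
    have h4 := Nat.lt_mul_div_succ n (by omega : 0 < k)
    omega
  · have h1 : LFC k n ≤ Nat.find hex := Nat.sInf_le (hup _ (Nat.find_spec hex))
    have h2 : (k - 1) * Nat.find hex < (2 ^ (k - 1) - 1) * n + (k - 1) := by
      rcases Nat.eq_zero_or_pos (Nat.find hex) with h0 | h0
      · rw [h0, mul_zero]; omega
      · have h3 := Nat.find_min hex (m := Nat.find hex - 1) (by omega)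
        push Not at h3
        have h4 : (k - 1) * Nat.find hex = (k - 1) * (Nat.find hex - 1) + (k - 1) := by
          rw [← Nat.mul_succ]; congr 1; omega
        omega
    have h5 : (k - 1) * LFC k n ≤ (k - 1) * Nat.find hex := Nat.mul_le_mul_left _ h1
    have h9 : (2 ^ (k - 1) - 1) * n + n = 2 ^ (k - 1) * n := by
      rw [Nat.sub_mul, one_mul, Nat.sub_add_cancel]
      exact Nat.le_mul_of_pos_left _ (by positivity)
    omega

end Pool.Agent.N361.DC
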