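import Pool.Agent.N361.DC.Rand

/-!
# Strict forms
-/

set_option autoImplicit false

namespace Pool.Agent.N361.DC

open Finset

/-- `F` is closed under adding and removing elements of `N` -/
def Free (F : Finset (Finset ℕ)) (N : Finset ℕ) : Prop := ∀ S ∈ F, ∀ R ⊆ N, (S \ N) ∪ R ∈ F

/-- The criterion with `> 1`. -/
theorem strict_gt (hflow : S_FLOW) (hinner : S_INNER) {F : Finset (Finset ℕ)} (hF : UC F)
    {N : Finset ℕ} (hN : N.Nonempty) {K : Finset (Finset ℕ)} (hKF : K ⊆ F) {w : Finset ℕ → ℚ}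
    (hKN : ∀ A ∈ K, A ⊆ N) (hw : ∀ A ∈ K, 0 ≤ w A)
    (h1 : ∀ x ∈ N, 1 < ∑ A ∈ K.filter (fun A => x ∈ A), w A)
    (h2 : ∀ x ∈ N, ∀ y ∈ N, x ≠ y →
      ∑ A ∈ K.filter (fun A => x ∈ A ∧ y ∈ A), w A * psi A.card ≤ 1) :
    (∃ x ∈ N, F.card < 2 * (F.filter (fun S => x ∈ S)).card) ∨ Free F N := by
  obtain ⟨x₀, hx₀, hmin⟩ := exists_min_image N
    (fun x => ∑ A ∈ K.filter (fun A => x ∈ A), w A) hN
  exact strict hflow hinner hF hKF (h1 x₀ hx₀) ⟨hKN, hw, hmin, h2⟩

/-- Uniform families of bounded codegree, strict form. -/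
theorem codeg_strict (hflow : S_FLOW) (hinner : S_INNER) (hcore : S_CORE) {F : Finset (Finset ℕ)}
    (hF : UC F) {N : Finset ℕ} (hN : N.Nonempty) {K : Finset (Finset ℕ)} (hKF : K ⊆ F) {k l : ℕ}
    (hk : 2 ≤ k) (hl0 : 1 ≤ l) (hK : ∀ A ∈ K, A ⊆ N ∧ A.card = k)
    (hl : ∀ x ∈ N, ∀ y ∈ N, x ≠ y → (K.filter (fun A => x ∈ A ∧ y ∈ A)).card ≤ l)
    (hm : l * (2 ^ (k - 1) - 1) * N.card < (k - 1) * K.card) :
    ∃ M ⊆ N, M.Nonempty ∧ ((∃ x ∈ M, F.card < 2 * (F.filter (fun S => x ∈ S)).card) ∨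
      Free F M) := by
  have hl' : (0 : ℚ) < l := by exact_mod_cast hl0
  have hk' : (0 : ℚ) < (k - 1 : ℕ) := by
    have : 0 < k - 1 := by omega
    exact_mod_cast this
  have hN' : (0 : ℚ) < N.card := by exact_mod_cast card_pos.2 hN
  have hp := psi_pos hk
  obtain ⟨M, hMN, hMne, hM⟩ := hcore N K (K.card / N.card) hN
    (fun A hA => ⟨(hK A hA).1, card_pos.1 (by rw [(hK A hA).2]; omega)⟩)
    (by rw [div_mul_cancel₀ _ hN'.ne'])
  have hC := unif_cert (M := M) (K := K.filter (fun A => A ⊆ M)) hk hl0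
    (fun A hA => ⟨(mem_filter.1 hA).2, (hK A (mem_filter.1 hA).1).2⟩)
    (fun x hx y hy hxy => (card_le_card (by
      intro A hA
      rw [mem_filter, mem_filter] at hA
      exact mem_filter.2 ⟨hA.1.1, hA.2⟩)).trans (hl x (hMN hx) y (hMN hy) hxy))
    (c := K.card / N.card) (fun x hx => by rw [filter_filter]; exact hM x hx)
  have hs : (1 : ℚ) < (K.card / N.card) / (l * psi k) := by
    rw [lt_div_iff₀ (by positivity), one_mul, lt_div_iff₀ hN']
    have h1 : ((l * (2 ^ (k - 1) - 1) * N.card : ℕ) : ℚ) < ((k - 1) * K.card : ℕ) := by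
      exact_mod_cast hm
    rw [Nat.cast_mul, Nat.cast_mul, Nat.cast_sub Nat.one_le_two_pow, Nat.cast_mul] at h1
    push_cast at h1
    rw [← psi_mul hk] at h1
    refine lt_of_mul_lt_mul_left (a := ((k - 1 : ℕ) : ℚ)) ?_ hk'.le
    linarith
  exact ⟨M, hMN, hMne, strict hflow hinner hF ((filter_subset _ _).trans hKF) hs hC⟩

/-- `F` is a union-closed family containing `B` in which no point of `range n` is in more than half
of the members and no nonempty part of `range n` is free -/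
def BadS (n : ℕ) (B : Finset (Finset ℕ)) : Prop := ∃ F : Finset (Finset ℕ), UC F ∧ B ⊆ F ∧
  (∀ x ∈ range n, 2 * (F.filter (fun S => x ∈ S)).card ≤ F.card) ∧
  ∀ M ⊆ range n, M.Nonempty → ¬ Free F M

theorem almost_strict (hflow : S_FLOW) (hinner : S_INNER) (hcore : S_CORE) (hmono : S_MONO)
    (hconf : S_CONF) (k : ℕ) (hk : 3 ≤ k) : ∃ C : ℕ, ∀ n m : ℕ,
    2 ^ (k - 1) * n ≤ (k - 1) * m → ∀ [DecidablePred (BadS n)],
    n * ((powersetCard m (powersetCard k (range n))).filter (BadS n)).card ≤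
      C * (powersetCard m (powersetCard k (range n))).card := by
  obtain ⟨C, hC⟩ := almost_gen hmono hconf k hk
  refine ⟨C, ?_⟩
  intro n m hnm _
  refine hC n m hnm (BadS n) ?_ ?_
  · rintro B' _ ⟨F, hF, hBF, h⟩ B hB
    exact ⟨F, hF, hB.trans hBF, h⟩
  · rintro hn B hB ⟨F, hF, hBF, h, h'⟩ K hK hlin
    by_contra hcon
    push Not at hcon
    obtain ⟨M, hMN, hMne, hab⟩ := codeg_strict hflow hinner hcore hF (N := range n)
      (nonempty_range_iff.2 (by omega)) (hK.trans hBF) (k := k) (l := 1) (by omega) le_rfl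
      (fun A hA => mem_powersetCard.1 (hB (hK hA)))
      (fun x _ y _ hxy => codeg_one hlin hxy) (by rw [one_mul, card_range]; exact hcon)
    rcases hab with ⟨x, hx, hab⟩ | hfree
    · have := h x (hMN hx)
      omega
    · exact h' M hMN hMne hfree

end Pool.Agent.N361.DC
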